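import Mathlib

set_option autoImplicit false

namespace Pool.Agent.Results.MP_cf29c0_an.Counter

open MeasureTheory Set Real Filter Topology
open scoped NNReal ZeroAtInfty ENNReal

/-- Inputs: bounded measurable functions `ℝ₊ → ℝ` with the sup norm. -/
def W : Submodule ℝ (lp (fun _ : ℝ≥0 => ℝ) ∞) where
  carrier := {u | Measurable fun t => u t}
  add_mem' a b := a.add b
  zero_mem' := measurable_const
  smul_mem' c _ a := a.const_smul c

/-- The axioms of a control system with state space `X` and input space `U`, whose elements are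
read as functions `ℝ₊ → ℝ` through `e`. -/
def Sys {X U : Type} [NormedAddCommGroup X] [NormedAddCommGroup U] (e : U → ℝ≥0 → ℝ)
    (φ : ℝ≥0 → X → U → X) : Prop :=
  (∀ u τ, ∃ v, (∀ s, e v s = e u (s + τ)) ∧ ‖v‖ ≤ ‖u‖) ∧
  (∀ u v t, ∃ w, ∀ s, e w s = if s ≤ t then e u s else e v (s - t)) ∧
  (∀ x u, φ 0 x u = x) ∧ (∀ t x u v, (∀ s ≤ t, e u s = e v s) → φ t x u = φ t x v) ∧
  (∀ x u, Continuous fun t => φ t x u) ∧
  ∀ t h x u v, (∀ s, e v s = e u (t + s)) → φ h (φ t x u) v = φ (t + h) x u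

/-- Dini derivative of `V = ‖·‖`. -/
noncomputable def D {X U : Type} [NormedAddCommGroup X] (φ : ℝ≥0 → X → U → X) (x : X) (u : U) :
    EReal :=
  limsup (fun t : ℝ≥0 => (((‖φ t x u‖ - ‖x‖) / t : ℝ) : EReal)) (𝓝[>] 0)

lemma nle (x : C₀(ℕ, ℝ)) (n : ℕ) : |x n| ≤ ‖x‖ := x.toBCF.norm_coe_le_norm n

lemma ule (u : W) (s : ℝ≥0) : |u.1 s| ≤ ‖u‖ := lp.norm_apply_le_norm ENNReal.top_ne_zero u.1 s

lemma ii (u : W) (l a b : ℝ) : IntervalIntegrable (fun s => exp (l * s) * u.1 s.toNNReal) volume a b :=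
  IntervalIntegrable.continuousOn_mul (IntervalIntegrable.mono_fun' intervalIntegrable_const
    (u.2.comp measurable_real_toNNReal).aestronglyMeasurable (.of_forall fun _ => ule u _))
    (by fun_prop)

lemma ie {l : ℝ} (hl : 0 < l) (t : ℝ) : ∫ s in (0 : ℝ)..t, exp (l * s) = (exp (l * t) - 1) / l := by
  rw [intervalIntegral.integral_comp_mul_left (fun s => exp s) hl.ne']; simp; ring

/-- coordinates of the solution -/
noncomputable def c (t : ℝ) (a : ℝ) (u : W) (n : ℕ) : ℝ := exp (-((n + 1) ^ 2 * t)) *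
  (a + (n + 1) * ∫ s in (0 : ℝ)..t, exp ((n + 1) ^ 2 * s) * u.1 s.toNNReal)

lemma cle {t : ℝ} (ht : 0 ≤ t) (a : ℝ) (u : W) (n : ℕ) : |c t a u n| ≤
    exp (-((n + 1) ^ 2 * t)) * |a| + (1 - exp (-((n + 1) ^ 2 * t))) * (‖u‖ * (1 / (n + 1))) := by
  have : ‖∫ s in (0 : ℝ)..t, exp ((n + 1) ^ 2 * s) * u.1 s.toNNReal‖ ≤
      ∫ s in (0 : ℝ)..t, exp ((n + 1) ^ 2 * s) * ‖u‖ :=
    intervalIntegral.norm_integral_le_of_norm_le ht (.of_forall fun s _ => by
      rw [norm_mul, Real.norm_of_nonneg (exp_pos _).le]; gcongr; exact ule u _)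
      (Continuous.intervalIntegrable (by fun_prop) _ _)
  rw [intervalIntegral.integral_mul_const, ie (by positivity)] at this
  rw [c, abs_mul, abs_of_pos (exp_pos _)]
  refine (mul_le_mul_of_nonneg_left ((abs_add_le _ _).trans (add_le_add_right ((abs_mul _ _).trans_le
    (mul_le_mul (abs_of_pos (by positivity)).le this (abs_nonneg _) (by positivity))) _))
    (exp_pos _).le).trans_eq ?_
  rw [exp_neg]; field_simp

lemma cle' {t : ℝ} (ht : 0 ≤ t) (a : ℝ) (u : W) (n : ℕ) :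
    |c t a u n| ≤ |a| + ‖u‖ * (1 / (n + 1)) := by
  have : exp (-((n + 1) ^ 2 * t)) ≤ 1 := exp_le_one_iff.2 (neg_nonpos.2 (by positivity))
  have := exp_pos (-((n + 1) ^ 2 * t))
  have : 0 ≤ ‖u‖ * (1 / (n + 1)) := by positivity
  nlinarith [cle ht a u n, abs_nonneg a]

lemma tz (x : C₀(ℕ, ℝ)) (u : W) : Tendsto (fun n => |x n| + ‖u‖ * (1 / (n + 1))) atTop (𝓝 0) := by
  have := x.zero_at_infty'
  rw [cocompact_eq_cofinite, Nat.cofinite_eq_atTop] at this
  simpa using this.abs.add (tendsto_one_div_add_atTop_nhds_zero_nat.const_mul ‖u‖)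

/-- the flow -/
noncomputable def fl (t : ℝ≥0) (x : C₀(ℕ, ℝ)) (u : W) : C₀(ℕ, ℝ) :=
  ⟨⟨fun n => c t (x n) u n, continuous_of_discreteTopology⟩, by
    rw [cocompact_eq_cofinite, Nat.cofinite_eq_atTop]
    exact squeeze_zero_norm (fun n => cle' t.2 _ u n) (tz x u)⟩

lemma fl_apply (t : ℝ≥0) (x : C₀(ℕ, ℝ)) (u : W) (n : ℕ) : fl t x u n = c t (x n) u n := rfl

lemma sl (a : ℝ) : Tendsto (fun t : ℝ≥0 => (exp (-(a * t)) - 1) / t) (𝓝[>] 0) (𝓝 (-a)) := by
  have := ((hasDerivAt_id (0 : ℝ)).const_mul a).neg.exp.tendsto_slope_zero_right.comp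
    (NNReal.map_coe_nhdsGT 0).le
  simpa [Function.comp_def, div_eq_inv_mul] using this

theorem result : ¬ FiniteDimensional ℝ C₀(ℕ, ℝ) ∧
    ∃ (U : Type) (_ : NormedAddCommGroup U) (_ : NormedSpace ℝ U) (e : U →ₗ[ℝ] ℝ≥0 → ℝ)
      (φ : ℝ≥0 → C₀(ℕ, ℝ) → U → C₀(ℕ, ℝ)), Function.Injective e ∧ Sys e φ ∧
      (∀ x u, 2 * ‖u‖ ≤ ‖x‖ → D φ x u ≤ (-(‖x‖ / 2) : ℝ)) ∧ ∃ u, D φ 0 u = ⊤ := by
  refine ⟨fun _ => ?_, W, inferInstance, inferInstance, ⟨⟨fun u s => u.1 s, fun _ _ => rfl⟩,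
    fun _ _ => rfl⟩, fl, fun u v h => Subtype.ext (lp.ext h), ⟨fun u τ => ?_, fun u v t => ?_,
    fun x u => ?_, fun t x u v (h : ∀ s ≤ t, u.1 s = v.1 s) => ?_,
    fun x u => ?_, fun t h x u v (H : ∀ s, v.1 s = u.1 (t + s)) => ?_⟩, fun x u h => ?_, ?_⟩
  · refine Module.Finite.not_linearIndependent_of_infinite (R := ℝ) (fun i : ℕ =>
      (⟨⟨Pi.single i 1, continuous_of_discreteTopology⟩, by
        rw [cocompact_eq_cofinite]
        exact tendsto_const_nhds.congr' ((eventually_cofinite_ne i).mono fun j h => by simp [h])⟩ :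
        C₀(ℕ, ℝ))) (LinearIndependent.of_comp (⟨⟨fun x : C₀(ℕ, ℝ) => (x : ℕ → ℝ), fun _ _ => rfl⟩,
          fun _ _ => rfl⟩ : _ →ₗ[ℝ] _) (Pi.linearIndependent_single_one ℕ ℝ))
  · exact ⟨⟨⟨fun s => u.1 (s + τ), memℓp_infty ⟨_, forall_mem_range.2 fun s => ule u _⟩⟩,
      u.2.comp (measurable_add_const τ)⟩, fun _ => rfl,
      lp.norm_le_of_forall_le (norm_nonneg _) fun s => ule u _⟩
  · refine ⟨⟨⟨fun s => if s ≤ t then u.1 s else v.1 (s - t), memℓp_infty ⟨max ‖u‖ ‖v‖,
      forall_mem_range.2 fun s => ?_⟩⟩, .ite measurableSet_Iic u.2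
        (v.2.comp (by fun_prop))⟩, fun _ => rfl⟩
    split_ifs
    exacts [(ule u _).trans (le_max_left _ _), (ule v _).trans (le_max_right _ _)]
  · ext n; simp [fl_apply, c]
  · ext n
    simp only [fl_apply, c]
    rw [intervalIntegral.integral_congr fun s hs => ?_]
    rw [uIcc_of_le t.coe_nonneg] at hs
    simp only [h _ (Real.toNNReal_le_iff_le_coe.2 hs.2)]
  · refine continuous_iff_continuousAt.2 fun t => ZeroAtInftyContinuousMap.tendsto_iff_tendstoUniformly.2
      (Metric.tendstoUniformly_iff.2 fun ε e0 => ?_)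
    obtain ⟨N, hN⟩ := eventually_atTop.1 ((tz x u).eventually (gt_mem_nhds (half_pos e0)))
    have : ∀ n, Continuous fun t : ℝ≥0 => c t (x n) u n := fun n =>
      (by fun_prop : Continuous fun t : ℝ≥0 => exp (-((n + 1) ^ 2 * t))).mul (continuous_const.add
        (continuous_const.mul ((intervalIntegral.continuous_primitive (ii u _) 0).comp
          NNReal.continuous_coe)))
    filter_upwards [(eventually_all_finset (Finset.range N)).2 fun n _ =>
      Metric.tendsto_nhds.1 ((this n).tendsto t) ε e0] with s hs n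
    rcases lt_or_ge n N with h | h
    · rw [dist_comm]; exact hs n (by simpa)
    · change dist (c t (x n) u n) (c s (x n) u n) < ε
      rw [Real.dist_eq]
      exact (abs_sub _ _).trans_lt (by
        linarith [hN n h, cle' t.coe_nonneg (x n) u n, cle' s.coe_nonneg (x n) u n])
  · ext n
    simp only [fl_apply, c]
    have : ∫ s in (0 : ℝ)..h, exp ((n + 1) ^ 2 * s) * v.1 s.toNNReal = exp (-((n + 1) ^ 2 * t)) *
        ∫ s in (t : ℝ)..t + h, exp ((n + 1) ^ 2 * s) * u.1 s.toNNReal := by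
      have := intervalIntegral.integral_comp_add_left (a := 0) (b := h)
        (fun s => exp ((n + 1) ^ 2 * s) * u.1 s.toNNReal) t
      rw [add_zero] at this
      rw [← this, ← intervalIntegral.integral_const_mul]
      refine intervalIntegral.integral_congr fun s hs => ?_
      rw [uIcc_of_le h.coe_nonneg] at hs
      simp only [H, Real.toNNReal_add t.coe_nonneg hs.1, ← mul_assoc, ← exp_add]
      congr 2
      · ring
      · simp
    rw [this, NNReal.coe_add, ← intervalIntegral.integral_add_adjacent_intervals (ii u _ 0 t)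
      (ii u _ t (t + h)), mul_add (_ ^ 2), neg_add, exp_add]
    ring
  · have T := (sl 1).mul_const (‖x‖ / 2)
    refine (limsup_le_limsup ?_).trans ((EReal.tendsto_coe.2 T).limsup_eq.trans_le (le_of_eq (by simp)))
    filter_upwards [self_mem_nhdsWithin] with t (t0 : (0 : ℝ) < t)
    have : ‖fl t x u‖ ≤ (1 + exp (-(1 * t))) * (‖x‖ / 2) :=
      (BoundedContinuousFunction.norm_le (f := (fl t x u).toBCF) (by positivity)).2 fun n => by
        have a : exp (-((n + 1) ^ 2 * t)) ≤ exp (-(1 * t)) := by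
          gcongr; nlinarith [n.cast_nonneg (α := ℝ)]
        have b : exp (-(1 * t)) ≤ 1 := exp_le_one_iff.2 (by linarith)
        have d : ‖u‖ * (1 / (n + 1)) ≤ ‖x‖ / 2 := (mul_le_of_le_one_right (norm_nonneg _)
          (div_le_one_of_le₀ (by simp) (by positivity))).trans (by linarith)
        refine (cle t.coe_nonneg _ u n).trans ((add_le_add (mul_le_mul_of_nonneg_left (nle x n)
          (exp_pos _).le) (mul_le_mul_of_nonneg_left d (by linarith))).trans ?_)
        nlinarith [norm_nonneg x]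
    rw [EReal.coe_le_coe_iff, div_mul_eq_mul_div]
    gcongr; linarith
  · refine ⟨⟨⟨fun _ => 1, memℓp_infty ⟨1, forall_mem_range.2 fun s => by simp⟩⟩, measurable_const⟩,
      (EReal.eq_top_iff_forall_lt _).2 fun y => ?_⟩
    obtain ⟨n, hn⟩ := exists_nat_gt y
    have T := (sl ((n + 1) ^ 2)).mul_const (-1 / (n + 1) : ℝ)
    refine lt_of_lt_of_le ?_ ((EReal.tendsto_coe.2 T).limsup_eq.ge.trans (limsup_le_limsup ?_))
    · rw [EReal.coe_lt_coe_iff]; field_simp; linarith
    filter_upwards [self_mem_nhdsWithin] with t (t0 : (0 : ℝ) < t)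
    rw [EReal.coe_le_coe_iff, div_mul_eq_mul_div, norm_zero, sub_zero]
    gcongr
    refine le_trans (le_of_eq ?_) ((le_abs_self _).trans (nle _ n))
    simp only [fl_apply, c, mul_one]
    rw [ie (by positivity), exp_neg]; simp; field_simp; ring

end Pool.Agent.Results.MP_cf29c0_an.Counter
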